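import Pool.Agent.Lib_helper22.NTA.Defs
import Pool.Agent.Lib_helper22.NTA.Main

/-!
# Not every compact connected family of harmonic NTA cones is a tangent set

For every `n ≥ 4` there is a compact connected family `C` of homogeneous harmonic cubics on
`ℝⁿ`, all of whose nodal domains `{p > 0}`, `{p < 0}` are NTA (even at all scales), such that
no interface of a pair of complementary NTA domains has all the cones `Σ_p`, `p ∈ C`, among its
tangent sets at one point.

All notions used in the statement are defined in `Pool/Agent/Lib_helper22/NTA/Defs.lean`; the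
proof is in `Pool/Agent/Lib_helper22/NTA/Main.lean` and the files it imports.
-/

namespace Pool.Agent.Results.MP_a5bf4a_an.NoPrescribedTangents

open Pool.Agent.TanCones

/-- For every `n ≥ 4` there is a compact connected set `C ⊆ ℋ_{n,3}` such that for no pair of
complementary NTA domains `Ωp`, `Ωm` in `ℝⁿ` and no point `Q` of their common boundary all the
cones `Σ_p`, `p ∈ C`, are tangent sets of the boundary at `Q`. In particular
`Tan(∂Ωp, Q) ≠ {Σ_p : p ∈ C}`. The members of `C` are NTA cones with `R = ∞`. -/
theorem result (n : ℕ) (hn : 4 ≤ n) :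
    ∃ C : Set (MvPolynomial (Fin n) ℝ), IsCompact (coeffVec '' C) ∧
      IsConnected (coeffVec '' C) ∧
      C ⊆ HarmonicCones n 3 ∧
      (∀ p ∈ C, IsGlobalNTA (OmegaPos p) ∧ IsGlobalNTA (OmegaNeg p)) ∧
      ∀ (Ωp Ωm : Set (E n)) (Q : E n), ComplementaryNTA Ωp Ωm → Q ∈ frontier Ωp →
        ¬ zeroSet '' C ⊆ Tan (frontier Ωp) Q :=
  main n hn

end Pool.Agent.Results.MP_a5bf4a_an.NoPrescribedTangents
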